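import Pool.Agent.TH163.AC4.Model
import Pool.Agent.TH163.AC3.Main

/-!
# The lower bound with side information, for given coins and earlier vectors
-/

set_option autoImplicit false

namespace Pool.Agent.TH163.AC4

open Finset H568R2 DomAC0
open Pool.Agent.TH163.AC2 (Alg toM toMat coord coord_toM mavg mavg_eq lenE rightE BadRow Avoid free
  unif unif_add unif_mono unif_smul unif_sum unif_const unif_nonneg unif_restr card_not_avoid_mul
  few_free)
open Pool.Agent.TH163.AC3 (HasDT rd rw' card_right sum_rd_le sum_rd_ge Shallow node_dt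
  collapse')
open Pool.Agent.H699R2.OMV (Prog Vec Mat IsProb before avg)

variable {n : ℕ} {Ω A : Type} {w k : ℕ}

/-- the algorithm with another content of the memory -/
def adv (alg : Alg n Ω A w) (mm : Mat n → A → Fin w → Bool) : Alg n Ω A w where
  mem := fun _ _ M => mm M
  prog := alg.prog

lemma adv_eq (alg : Alg n Ω A w) (mm : Mat n → A → Fin w → Bool) (ω : Ω) (h : List (Vec n))
    (M : Mat n) (hM : alg.mem ω h M = mm M) (v : Vec n) :
    (adv alg mm).ans ω h M v = alg.ans ω h M v ∧ (adv alg mm).adr ω h M v = alg.adr ω h M v := by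
  unfold Alg.ans Alg.adr
  rw [hM]
  exact ⟨rfl, rfl⟩

/-- all memory bits have shallow decision trees under the restriction, for each side information -/
def AllDT (G : (Mat n)ˣ) (B : Fin n → (Mat n)ˣ)
    (mm : (Fin k → Bool) → Mat n → A → Fin w → Bool) (K : ℕ)
    (ρ : Restr (Fin n × Fin n)) : Prop :=
  ∀ y a i, HasDT K (rs (fun X => mm y (toM G B X) a i) ρ)

lemma one_restr_good (alg : Alg n Ω A w) (ω : Ω) (h : List (Vec n)) (G : (Mat n)ˣ)
    (B : Fin n → (Mat n)ˣ) (f : Mat n → Fin k → Bool)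
    (mm : (Fin k → Bool) → Mat n → A → Fin w → Bool)
    (hmm : ∀ M, alg.mem ω h M = mm (f M) M)
    (v : Vec n) (K D0 m : ℕ) (ρ : Restr (Fin n × Fin n))
    (J : (Fin k → Bool) → A → Fin w → Pool.Agent.TH163.AC3.Tree (Fin n × Fin n))
    (hJK : ∀ y a i, (J y a i).depth ≤ K)
    (hJd : ∀ y a i x, (J y a i).eval x = rs (fun X => mm y (toM G B X) a i) ρ x)
    (hav : ∀ r, Avoid (free ρ r) (h.map (↑(B r)⁻¹ : Mat n).mulVec) D0
          ((↑(B r)⁻¹ : Mat n).mulVec v)) {P : ℝ} (hP : P = ((D0 * (n - m) : ℕ) : ℝ)) :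
    P * unif (fun x => if alg.ans ω h (toM G B (ov ρ x)) v =
        (toM G B (ov ρ x)).mulVec v then (1 : ℝ) else 0) ≤
      K * w * unif (fun x => ((alg.adr ω h (toM G B (ov ρ x)) v).length : ℝ)) +
      P * (2 ^ k / 2 ^ m) := by
  have hP0 : 0 ≤ P := by rw [hP]; positivity
  have h1 : ∀ y, 2 ^ m * (univ.filter (fun x => (adv alg (mm y)).ans ω h (toM G B (ov ρ x)) v =
        (toM G B (ov ρ x)).mulVec v ∧
        m ≤ (rw' (adv alg (mm y)) ω h G B ρ (J y) v D0 x).card)).card ≤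
      Fintype.card (Fin n × Fin n → Bool) := by
    intro y
    apply card_right (adv alg (mm y)) ω h G B ρ (J y) v (hJd y) D0 m
    intro r D hD
    obtain ⟨u, h1, h2, h3, h4⟩ := hav r D hD
    refine ⟨u, fun c hc => (Finset.mem_filter.1 (h1 c hc)).2, h2, ?_, h4⟩
    intro z hz
    exact h3 _ (List.mem_map_of_mem hz)
  have h2 : ∀ y, unif (fun x => if ((adv alg (mm y)).ans ω h (toM G B (ov ρ x)) v =
    (toM G B (ov ρ x)).mulVec v ∧ m ≤ (rw' (adv alg (mm y)) ω h G B ρ (J y) v D0 x).card)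
      then (1 : ℝ) else 0) ≤ 1 / 2 ^ m := by
    intro y
    unfold unif
    rw [Finset.sum_boole]
    have h3 : (0 : ℝ) < Fintype.card (Fin n × Fin n → Bool) := by
      exact_mod_cast Fintype.card_pos
    rw [div_le_div_iff₀ h3 (by positivity), mul_comm, one_mul]
    exact_mod_cast h1 y
  have h3 : ∀ x, P * (if alg.ans ω h (toM G B (ov ρ x)) v =
      (toM G B (ov ρ x)).mulVec v then (1 : ℝ) else 0) ≤
      (K * w) * ((alg.adr ω h (toM G B (ov ρ x)) v).length : ℝ) +
      P * ∑ y, (if ((adv alg (mm y)).ans ω h (toM G B (ov ρ x)) v =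
        (toM G B (ov ρ x)).mulVec v ∧
        m ≤ (rw' (adv alg (mm y)) ω h G B ρ (J y) v D0 x).card) then (1 : ℝ) else 0) := by
    intro x
    have hnn : ∀ y ∈ (univ : Finset (Fin k → Bool)),
        (0 : ℝ) ≤ (if ((adv alg (mm y)).ans ω h (toM G B (ov ρ x)) v =
        (toM G B (ov ρ x)).mulVec v ∧
        m ≤ (rw' (adv alg (mm y)) ω h G B ρ (J y) v D0 x).card) then (1 : ℝ) else 0) := by
      intro y _
      split_ifs <;> norm_num
    have h4 : (0 : ℝ) ≤ (K * w) * ((alg.adr ω h (toM G B (ov ρ x)) v).length : ℝ) := by positivity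
    have h4' := mul_nonneg hP0 (Finset.sum_nonneg hnn)
    by_cases h5 : alg.ans ω h (toM G B (ov ρ x)) v = (toM G B (ov ρ x)).mulVec v
    · obtain ⟨y, hy⟩ : ∃ y, y = f (toM G B (ov ρ x)) := ⟨_, rfl⟩
      have h6 := adv_eq alg (mm y) ω h (toM G B (ov ρ x)) (by rw [hmm, hy]) v
      by_cases h7 : m ≤ (rw' (adv alg (mm y)) ω h G B ρ (J y) v D0 x).card
      · have h8 := Finset.single_le_sum hnn (Finset.mem_univ y)
        rw [if_pos (And.intro (h6.1.trans h5) h7)] at h8
        have h9 := mul_le_mul_of_nonneg_left h8 hP0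
        rw [if_pos h5]
        linarith
      · rw [if_pos h5, mul_one]
        have h8 : P ≤ (K * w) * ((alg.adr ω h (toM G B (ov ρ x)) v).length : ℝ) := by
          have h9 := sum_rd_ge (adv alg (mm y)) ω h G B ρ (J y) v D0 m x (not_le.1 h7)
          have h10 := sum_rd_le (adv alg (mm y)) ω h G B ρ (J y) K (hJK y) v x
          rw [h6.2] at h10
          have h11 := (Nat.cast_le (α := ℝ)).2 (h9.trans h10)
          rw [← hP, Nat.cast_mul, Nat.cast_mul] at h11
          exact h11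
        linarith
    · rw [if_neg h5, mul_zero]
      linarith
  have h5 := unif_mono h3
  rw [unif_smul, unif_add, unif_smul, unif_smul, unif_sum] at h5
  have h6 : ∑ y : Fin k → Bool, unif (fun x =>
      if ((adv alg (mm y)).ans ω h (toM G B (ov ρ x)) v =
        (toM G B (ov ρ x)).mulVec v ∧
        m ≤ (rw' (adv alg (mm y)) ω h G B ρ (J y) v D0 x).card) then (1 : ℝ) else 0) ≤
      2 ^ k / 2 ^ m := by
    refine (Finset.sum_le_sum (fun y _ => h2 y)).trans (le_of_eq ?_)
    rw [Finset.sum_const, Finset.card_univ, nsmul_eq_mul, Fintype.card_fun, Fintype.card_bool,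
      Fintype.card_fin]
    push_cast
    ring
  have h7 := mul_le_mul_of_nonneg_left h6 hP0
  linarith

open Classical in
lemma one_restr (alg : Alg n Ω A w) (ω : Ω) (h : List (Vec n)) (G : (Mat n)ˣ)
    (B : Fin n → (Mat n)ˣ) (f : Mat n → Fin k → Bool)
    (mm : (Fin k → Bool) → Mat n → A → Fin w → Bool)
    (hmm : ∀ M, alg.mem ω h M = mm (f M) M) (v : Vec n) (K D0 m : ℕ) {P : ℝ}
    (hP : P = ((D0 * (n - m) : ℕ) : ℝ)) (ρ : Restr (Fin n × Fin n)) :
    P * unif (fun x => if alg.ans ω h (toM G B (ov ρ x)) v =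
        (toM G B (ov ρ x)).mulVec v then (1 : ℝ) else 0) ≤
      K * w * unif (fun x => ((alg.adr ω h (toM G B (ov ρ x)) v).length : ℝ)) +
      P * (2 ^ k / 2 ^ m) +
      P * ∑ r, (if BadRow B h D0 ρ v r then (1 : ℝ) else 0) +
      P * (if ¬ AllDT G B mm K ρ then (1 : ℝ) else 0) := by
  have hP0 : 0 ≤ P := by rw [hP]; positivity
  have hU : 0 ≤ K * w * unif (fun x => ((alg.adr ω h (toM G B (ov ρ x)) v).length : ℝ)) :=
    mul_nonneg (by positivity) (unif_nonneg (fun x => by positivity))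
  have hW : unif (fun x => if alg.ans ω h (toM G B (ov ρ x)) v =
        (toM G B (ov ρ x)).mulVec v then (1 : ℝ) else 0) ≤ 1 := by
    refine (unif_mono (G := fun _ => (1 : ℝ)) ?_).trans (le_of_eq (unif_const 1))
    intro x
    split_ifs <;> norm_num
  have hW' := mul_le_mul_of_nonneg_left hW hP0
  have hM : 0 ≤ P * (2 ^ k / 2 ^ m) := by positivity
  have hA0 : ∀ r ∈ (univ : Finset (Fin n)),
      (0 : ℝ) ≤ (if BadRow B h D0 ρ v r then (1 : ℝ) else 0) := by
    intro r _
    split_ifs <;> norm_num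
  have hA : 0 ≤ P * ∑ r, (if BadRow B h D0 ρ v r then (1 : ℝ) else 0) :=
    mul_nonneg hP0 (Finset.sum_nonneg hA0)
  by_cases hg : AllDT G B mm K ρ
  · rw [if_neg (not_not.2 hg), mul_zero, add_zero]
    by_cases hb : ∃ r, BadRow B h D0 ρ v r
    · obtain ⟨r, hr⟩ := hb
      have h1 : (1 : ℝ) ≤ ∑ r, (if BadRow B h D0 ρ v r then (1 : ℝ) else 0) := by
        refine le_trans ?_ (Finset.single_le_sum hA0 (Finset.mem_univ r))
        rw [if_pos hr]
      have h2 := mul_le_mul_of_nonneg_left h1 hP0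
      linarith
    · have hav : ∀ r, Avoid (free ρ r) (h.map (↑(B r)⁻¹ : Mat n).mulVec) D0
          ((↑(B r)⁻¹ : Mat n).mulVec v) := by
        intro r
        by_contra hcon
        exact hb ⟨r, hcon⟩
      have hg' := hg
      unfold AllDT HasDT at hg'
      choose J hJK hJd using hg'
      have h1 := one_restr_good alg ω h G B f mm hmm v K D0 m ρ J hJK hJd hav hP
      exact h1.trans (le_add_of_nonneg_right hA)
  · rw [if_pos hg, mul_one]
    linarith

open Classical in
lemma avg_restr (alg : Alg n Ω A w) (ω : Ω) (h : List (Vec n)) (G : (Mat n)ˣ)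
    (B : Fin n → (Mat n)ˣ) (f : Mat n → Fin k → Bool)
    (mm : (Fin k → Bool) → Mat n → A → Fin w → Bool)
    (hmm : ∀ M, alg.mem ω h M = mm (f M) M) (v : Vec n) (K D0 m : ℕ) {p : ℝ} (h0 : 0 ≤ p) (h1 : p ≤ 1) :
    ((D0 * (n - m) : ℕ) : ℝ) * rightE alg ω h v ≤ K * w * lenE alg ω h v +
      ((D0 * (n - m) : ℕ) : ℝ) * (2 ^ k / 2 ^ m) +
      ((D0 * (n - m) : ℕ) : ℝ) * ∑ r, Ex (wq p) (fun ρ : Restr (Fin n × Fin n) =>
        if BadRow B h D0 ρ v r then (1 : ℝ) else 0) +
      ((D0 * (n - m) : ℕ) : ℝ) * Ex (wq p) (fun ρ : Restr (Fin n × Fin n) =>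
        if ¬ AllDT G B mm K ρ then (1 : ℝ) else 0) := by
  have h2 := Ex_mono (wq_nonneg h0 h1) (one_restr alg ω h G B f mm hmm v K D0 m rfl)
  rw [Ex_smul, Ex_add, Ex_add, Ex_add, Ex_smul, Ex_const (wq_sum p), Ex_smul, Ex_smul,
    Ex_sum] at h2
  have h3 : Ex (wq p) (fun ρ : Restr (Fin n × Fin n) =>
      unif (fun x => ((alg.adr ω h (toM G B (ov ρ x)) v).length : ℝ))) = lenE alg ω h v := by
    unfold lenE
    rw [mavg_eq G B]
    exact (unif_restr p (fun X => ((alg.adr ω h (toM G B X) v).length : ℝ))).symm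
  have h4 : Ex (wq p) (fun ρ : Restr (Fin n × Fin n) =>
      unif (fun x => if alg.ans ω h (toM G B (ov ρ x)) v =
        (toM G B (ov ρ x)).mulVec v then (1 : ℝ) else 0)) = rightE alg ω h v := by
    unfold rightE
    rw [mavg_eq G B]
    exact (unif_restr p (fun X => if alg.ans ω h (toM G B X) v =
        (toM G B X).mulVec v then (1 : ℝ) else 0)).symm
  rw [h3, h4] at h2
  exact h2

open Classical in
lemma avg_vec (alg : Alg n Ω A w) (ω : Ω) (h : List (Vec n)) (G : (Mat n)ˣ)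
    (B : Fin n → (Mat n)ˣ) (f : Mat n → Fin k → Bool)
    (mm : (Fin k → Bool) → Mat n → A → Fin w → Bool)
    (hmm : ∀ M, alg.mem ω h M = mm (f M) M) (K D0 s0 m : ℕ) {p : ℝ} (h0 : 0 ≤ p) (h1 : p ≤ 1) :
    ((2 : ℝ) ^ n) * (-(((D0 * (n - m) : ℕ) : ℝ) * (2 ^ k / 2 ^ m + n * (2 ^ s0 * (1 - p / 2) ^ n +
      (n + 1) ^ D0 * 2 ^ (h.length + D0) / 2 ^ s0) +
      Ex (wq p) (fun ρ : Restr (Fin n × Fin n) =>
        if ¬ AllDT G B mm K ρ then (1 : ℝ) else 0)))) ≤
      ∑ v, (K * w * lenE alg ω h v - ((D0 * (n - m) : ℕ) : ℝ) * rightE alg ω h v) := by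
  have hV : (Fintype.card (Vec n) : ℝ) = 2 ^ n := by
    rw [Fintype.card_fun, ZMod.card, Fintype.card_fin]
    push_cast
    rfl
  have hs := Finset.sum_le_sum (fun v (_ : v ∈ (univ : Finset (Vec n))) =>
    avg_restr alg ω h G B f mm hmm v K D0 m h0 h1)
  set P : ℝ := ((D0 * (n - m) : ℕ) : ℝ) with hP
  have hP0 : 0 ≤ P := by positivity
  rw [Finset.sum_add_distrib, Finset.sum_add_distrib, Finset.sum_add_distrib, Finset.sum_const,
    Finset.card_univ, nsmul_eq_mul, hV, Finset.sum_const, Finset.card_univ, nsmul_eq_mul,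
    hV] at hs
  have e3 : ∑ v : Vec n, P * ∑ r, Ex (wq p) (fun ρ : Restr (Fin n × Fin n) =>
        if BadRow B h D0 ρ v r then (1 : ℝ) else 0) = P * ∑ r, ∑ v : Vec n,
        Ex (wq p) (fun ρ : Restr (Fin n × Fin n) =>
        if BadRow B h D0 ρ v r then (1 : ℝ) else 0) := by
    rw [← Finset.mul_sum, Finset.sum_comm]
  rw [e3] at hs
  have hr : ∀ r : Fin n, ∑ v : Vec n, Ex (wq p) (fun ρ : Restr (Fin n × Fin n) =>
        if BadRow B h D0 ρ v r then (1 : ℝ) else 0) ≤
      2 ^ n * (2 ^ s0 * (1 - p / 2) ^ n + (n + 1) ^ D0 * 2 ^ (h.length + D0) / 2 ^ s0) := by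
    intro r
    rw [← Ex_sum]
    have hpt : ∀ ρ : Restr (Fin n × Fin n),
        ∑ v : Vec n, (if BadRow B h D0 ρ v r then (1 : ℝ) else 0) ≤
        2 ^ n * (if (free ρ r).card < s0 then (1 : ℝ) else 0) +
        2 ^ n * ((n + 1) ^ D0 * 2 ^ (h.length + D0) / 2 ^ s0) := by
      intro ρ
      rw [Finset.sum_boole]
      by_cases hf : (free ρ r).card < s0
      · rw [if_pos hf, mul_one]
        have h3 : ((univ.filter (fun v : Vec n => BadRow B h D0 ρ v r)).card : ℝ) ≤
            2 ^ n := by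
          rw [← hV]
          exact_mod_cast Finset.card_le_univ _
        have h4 : (0 : ℝ) ≤ 2 ^ n * ((n + 1) ^ D0 * 2 ^ (h.length + D0) / 2 ^ s0) := by
          positivity
        linarith
      · rw [if_neg hf, mul_zero, zero_add]
        have h3 : (univ.filter (fun v : Vec n => BadRow B h D0 ρ v r)).card * 2 ^ s0 ≤
            (n + 1) ^ D0 * 2 ^ (h.length + D0) * 2 ^ n := by
          unfold BadRow
          convert card_not_avoid_mul (B r) (free ρ r) h D0 s0 (not_lt.1 hf)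
        have h4 : ((univ.filter (fun v : Vec n => BadRow B h D0 ρ v r)).card : ℝ) *
            2 ^ s0 ≤ (n + 1) ^ D0 * 2 ^ (h.length + D0) * 2 ^ n := by
          exact_mod_cast h3
        rw [← mul_div_assoc, le_div_iff₀ (by positivity)]
        linarith
    refine (Ex_mono (wq_nonneg h0 h1) hpt).trans ?_
    rw [Ex_add, Ex_smul, Ex_const (wq_sum p)]
    have h5 := few_free r h0 h1 s0
    have h6 : (0 : ℝ) < 2 ^ n := by positivity
    have h7 := mul_le_mul_of_nonneg_left h5 h6.le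
    linarith
  have hr' := Finset.sum_le_sum (fun r (_ : r ∈ (univ : Finset (Fin n))) => hr r)
  rw [Finset.sum_const, Finset.card_univ, Fintype.card_fin, nsmul_eq_mul] at hr'
  have hr'' := mul_le_mul_of_nonneg_left hr' hP0
  rw [Finset.sum_sub_distrib]
  linarith

/-- under a random restriction all memory bits get shallow decision trees -/
lemma bad_le [Fintype A] (G : (Mat n)ˣ) (B : Fin n → (Mat n)ˣ) {d s : ℕ}
    (mm : (Fin k → Bool) → Mat n → A → Fin w → Bool)
    (C : A → Fin w → (Fin k → Bool) → DomAC0.Circuit (Fin n × Fin n))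
    (hCs : ∀ a i y, (C a i y).size ≤ s) (hCd : ∀ a i y, (C a i y).depth ≤ d)
    (hCe : ∀ y M a i, mm y M a i = (C a i y).eval (coord G B M))
    {q : ℝ} (h0 : 0 ≤ q) (h1 : q ≤ 1 / 3) {K : ℕ} (hK : 1 ≤ K) :
    open Classical in
    Ex (wq (q ^ d)) (fun ρ : Restr (Fin n × Fin n) =>
        if ¬ AllDT G B mm K ρ then (1 : ℝ) else 0) ≤
      (2 ^ k * (Fintype.card A * w) : ℕ) * (d * s * (12 * K * q) ^ (K + 1)) := by
  classical
  have hp0 : 0 ≤ q ^ d := pow_nonneg h0 d
  have hp1 : q ^ d ≤ 1 := pow_le_one₀ h0 (by linarith)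
  have hpt : ∀ ρ : Restr (Fin n × Fin n),
      (if ¬ AllDT G B mm K ρ then (1 : ℝ) else 0) ≤
      ∑ ai : (Fin k → Bool) × A × Fin w,
        (if ¬ Shallow (C ai.2.1 ai.2.2 ai.1) K d ρ then (1 : ℝ) else 0) := by
    intro ρ
    have hnn : ∀ ai ∈ (univ : Finset ((Fin k → Bool) × A × Fin w)),
        (0 : ℝ) ≤ (if ¬ Shallow (C ai.2.1 ai.2.2 ai.1) K d ρ then (1 : ℝ) else 0) := by
      intro ai _
      split_ifs <;> norm_num
    by_cases hg : AllDT G B mm K ρ
    · rw [if_neg (not_not.2 hg)]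
      exact Finset.sum_nonneg hnn
    · rw [if_pos hg]
      have hex : ∃ y a i, ¬ Shallow (C a i y) K d ρ := by
        by_contra hcon
        apply hg
        intro y a i
        have hG : Shallow (C a i y) K d ρ := by
          by_contra h3
          exact hcon ⟨y, a, i, h3⟩
        have h4 := node_dt (C a i y) hK hG (C a i y).output (hCd a i y)
        have h5 : (fun X => mm y (toM G B X) a i) =
            fun x => (C a i y).nodeVal x (C a i y).output := by
          funext X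
          rw [hCe y (toM G B X) a i, coord_toM]
          rfl
        rw [h5]
        exact h4
      obtain ⟨y, a, i, hai⟩ := hex
      refine le_trans ?_ (Finset.single_le_sum hnn (Finset.mem_univ (y, a, i)))
      rw [if_pos hai]
  refine (Ex_mono (wq_nonneg hp0 hp1) hpt).trans ?_
  rw [Ex_sum]
  have hone : ∀ ai ∈ (univ : Finset ((Fin k → Bool) × A × Fin w)),
      Ex (wq (q ^ d)) (fun ρ : Restr (Fin n × Fin n) =>
        if ¬ Shallow (C ai.2.1 ai.2.2 ai.1) K d ρ then (1 : ℝ) else 0) ≤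
      d * s * (12 * K * q) ^ (K + 1) := by
    intro ai _
    refine (collapse' (C ai.2.1 ai.2.2 ai.1) h0 h1 hK d).trans ?_
    apply mul_le_mul_of_nonneg_right _ (by positivity)
    apply mul_le_mul_of_nonneg_left _ (by positivity)
    exact_mod_cast hCs ai.2.1 ai.2.2 ai.1
  refine (Finset.sum_le_card_nsmul _ _ _ hone).trans ?_
  rw [nsmul_eq_mul, Finset.card_univ, Fintype.card_prod, Fintype.card_prod, Fintype.card_fin,
    Fintype.card_fun, Fintype.card_bool, Fintype.card_fin]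

end Pool.Agent.TH163.AC4
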