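import Pool.Agent.TH163.AC2.Model

/-!
# Memory of bounded depth with arbitrary side information
-/

set_option autoImplicit false

namespace Pool.Agent.TH163.AC4

open Pool.Agent.TH163.AC2 (Alg coord)
open Pool.Agent.H699R2.OMV (Vec Mat)

variable {n : ℕ} {Ω A : Type} {w : ℕ}

/-- For given coins and earlier vectors there are coordinates (invertible matrices `G` and `B r`) and
`k` arbitrary bits `f M` of side information about the matrix such that, for each value `y` of the
side information, every bit of every cell is computed from the `n * n` bits of the matrix by a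
circuit with at most `s` gates (AND, OR of unbounded fan-in, NOT) of depth at most `d`, on
all matrices with this side information. -/
def DepthSize (alg : Alg n Ω A w) (d s k : ℕ) : Prop :=
  ∀ (ω : Ω) (h : List (Vec n)), ∃ (G : (Mat n)ˣ) (B : Fin n → (Mat n)ˣ)
    (f : Mat n → Fin k → Bool), ∀ (a : A) (i : Fin w) (y : Fin k → Bool),
    ∃ C : DomAC0.Circuit (Fin n × Fin n),
      C.size ≤ s ∧ C.depth ≤ d ∧ ∀ M : Mat n, f M = y → alg.mem ω h M a i = C.eval (coord G B M)

end Pool.Agent.TH163.AC4
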